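import Pool.Agent.H180.Pj.Sharp

/-! Growth of products of involutions: abstract ovals. -/

set_option autoImplicit false
set_option linter.unusedSectionVars false

open Finset
open scoped Classical

namespace Pool.Agent.H180.Qd

open Pool.Agent.H180.Pj

/-- A set of involutions which contains, for any two disjoint pairs `{a, b}`, `{c, d}` (where
`a = b` and `c = d` are allowed), an element that interchanges `a` with `b` and `c` with `d`. -/
def Quad {Ω : Type} (I : Set (Equiv.Perm Ω)) : Prop :=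
  (∀ σ ∈ I, σ * σ = 1) ∧
    ∀ a b c d : Ω, a ≠ c → a ≠ d → b ≠ c → b ≠ d → ∃ σ ∈ I, σ a = b ∧ σ c = d

/-- The permutations that are products of `k` elements of `I`. -/
def Prods {Ω : Type} (I : Set (Equiv.Perm Ω)) (k : ℕ) : Set (Equiv.Perm Ω) :=
  {f | ∃ l : List (Equiv.Perm Ω), l.length = k ∧ (∀ σ ∈ l, σ ∈ I) ∧ l.prod = f}

variable {Ω : Type} {I : Set (Equiv.Perm Ω)}

lemma prods_succ {k : ℕ} {f : Equiv.Perm Ω} :
    f ∈ Prods I (k + 1) ↔ ∃ σ ∈ I, ∃ g ∈ Prods I k, f = σ * g := by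
  constructor
  · rintro ⟨l, h1, h2, rfl⟩
    cases l with
    | nil => simp at h1
    | cons σ l =>
      refine ⟨σ, h2 σ (by simp), l.prod, ⟨l, ?_, fun τ hτ => h2 τ (by simp [hτ]), rfl⟩, by simp⟩
      simpa using h1
  · rintro ⟨σ, hσ, g, ⟨l, h1, h2, rfl⟩, rfl⟩
    refine ⟨σ :: l, by simp [h1], ?_, by simp⟩
    intro τ hτ
    rcases List.mem_cons.1 hτ with e | e
    · rw [e]; exact hσ
    · exact h2 τ e

lemma prods_zero : (1 : Equiv.Perm Ω) ∈ Prods I 0 := ⟨[], rfl, by simp, rfl⟩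

lemma inv_app (h : Quad I) {σ : Equiv.Perm Ω} (hσ : σ ∈ I) {a b : Ω} (e : σ a = b) : σ b = a := by
  have := congrArg (fun τ : Equiv.Perm Ω => τ a) (h.1 σ hσ)
  simp only [Equiv.Perm.mul_apply, Equiv.Perm.one_apply] at this
  rw [← e]; exact this

lemma two_step (h : Quad I) {a b c a' b' c' : Ω} (hab : a ≠ b) (hbc : b ≠ c) (hac : a ≠ c)
    (hab' : a' ≠ b') (hbc' : b' ≠ c') (hac' : a' ≠ c') (ht : a = a' ↔ b = b') :
    ∃ σ ∈ I, ∃ τ ∈ I, σ (τ a) = a' ∧ σ (τ b) = b' ∧ σ (τ c) = c' := by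
  have h1 : ∃ τ ∈ I, τ a = b' ∧ τ b = a' := by
    by_cases e : a = a'
    · have e' := ht.1 e
      subst e; subst e'
      obtain ⟨τ, hτ, h1, -⟩ := h.2 a b c c hac hac hbc hbc
      exact ⟨τ, hτ, h1, inv_app h hτ h1⟩
    · have e' : b ≠ b' := fun e' => e (ht.2 e')
      exact h.2 a b' b a' hab e e'.symm hab'.symm
  obtain ⟨τ, hτ, h1, h2⟩ := h1
  have k1 : τ c ≠ b' := fun e => hac (τ.injective (by rw [h1, e]))
  have k2 : τ c ≠ a' := fun e => hbc (τ.injective (by rw [h2, e]))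
  obtain ⟨σ, hσ, e1, e2⟩ := h.2 a' b' (τ c) c' k2.symm hac' k1.symm hbc'
  exact ⟨σ, hσ, τ, hτ, by rw [h1]; exact inv_app h hσ e1, by rw [h2, e1], e2⟩

lemma two_trans (h : Quad I) (y y' : Fin 3 ↪ Ω) :
    ∃ σ ∈ I, ∃ τ ∈ I, ∀ i, σ (τ (y i)) = y' i := by
  have n01 : y 0 ≠ y 1 := fun e => by simpa using y.injective e
  have n12 : y 1 ≠ y 2 := fun e => by simpa using y.injective e
  have n02 : y 0 ≠ y 2 := fun e => by simpa using y.injective e
  have n01' : y' 0 ≠ y' 1 := fun e => by simpa using y'.injective e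
  have n12' : y' 1 ≠ y' 2 := fun e => by simpa using y'.injective e
  have n02' : y' 0 ≠ y' 2 := fun e => by simpa using y'.injective e
  have key : (∃ σ ∈ I, ∃ τ ∈ I, σ (τ (y 0)) = y' 0 ∧ σ (τ (y 1)) = y' 1 ∧ σ (τ (y 2)) = y' 2) := by
    by_cases c1 : (y 0 = y' 0 ↔ y 1 = y' 1)
    · exact two_step h n01 n12 n02 n01' n12' n02' c1
    · by_cases c2 : (y 0 = y' 0 ↔ y 2 = y' 2)
      · obtain ⟨σ, hσ, τ, hτ, e1, e2, e3⟩ :=
          two_step h n02 n12.symm n01 n02' n12'.symm n01' c2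
        exact ⟨σ, hσ, τ, hτ, e1, e3, e2⟩
      · have c3 : (y 1 = y' 1 ↔ y 2 = y' 2) := by tauto
        obtain ⟨σ, hσ, τ, hτ, e1, e2, e3⟩ :=
          two_step h n12 n02.symm n01.symm n12' n02'.symm n01'.symm c3
        exact ⟨σ, hσ, τ, hτ, e3, e1, e2⟩
  obtain ⟨σ, hσ, τ, hτ, e1, e2, e3⟩ := key
  refine ⟨σ, hσ, τ, hτ, fun i => ?_⟩
  fin_cases i
  · exact e1
  · exact e2
  · exact e3

lemma prods_trans (h : Quad I) (k : ℕ) : ∀ y y' : Fin 3 ↪ Ω,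
    ∃ f ∈ Prods I (k + 2), ∀ i, f (y i) = y' i := by
  induction k with
  | zero =>
    intro y y'
    obtain ⟨σ, hσ, τ, hτ, e⟩ := two_trans h y y'
    refine ⟨σ * (τ * 1), prods_succ.2 ⟨σ, hσ, _, prods_succ.2 ⟨τ, hτ, 1, prods_zero, rfl⟩, rfl⟩, ?_⟩
    simpa using e
  | succ k ih =>
    intro y y'
    obtain ⟨σ, hσ, -⟩ := two_trans h y y'
    obtain ⟨f, hf, e⟩ := ih y (y'.trans σ.toEmbedding)
    refine ⟨σ * f, prods_succ.2 ⟨σ, hσ, f, hf, rfl⟩, fun i => ?_⟩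
    rw [Equiv.Perm.mul_apply, e i]
    exact inv_app h hσ rfl

variable [Fintype Ω]

/-- The products of two elements of `I` form a group that is sharply transitive on the
ordered triples of distinct elements of `Ω`. -/
def Sharp3 (I : Set (Equiv.Perm Ω)) : Prop :=
  ∃ G : Subgroup (Equiv.Perm Ω), (G : Set (Equiv.Perm Ω)) = Prods I 2 ∧
    ∀ x y z x' y' z' : Ω, x ≠ y → y ≠ z → x ≠ z → x' ≠ y' → y' ≠ z' → x' ≠ z' →
      ∃! g : Equiv.Perm Ω, g ∈ G ∧ g x = x' ∧ g y = y' ∧ g z = z'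

lemma prods_two {f : Equiv.Perm Ω} : f ∈ Prods I 2 ↔ ∃ σ ∈ I, ∃ τ ∈ I, f = σ * τ := by
  constructor
  · intro h
    obtain ⟨σ, hσ, g, hg, rfl⟩ := prods_succ.1 h
    obtain ⟨τ, hτ, g', ⟨l, hl, -, rfl⟩, rfl⟩ := prods_succ.1 hg
    have : l = [] := List.length_eq_zero_iff.1 hl
    subst this
    exact ⟨σ, hσ, τ, hτ, by simp⟩
  · rintro ⟨σ, hσ, τ, hτ, rfl⟩
    exact prods_succ.2 ⟨σ, hσ, τ, prods_succ.2 ⟨τ, hτ, 1, prods_zero, by simp⟩, rfl⟩

lemma Sharp3.isPrimePow (h : Sharp3 I) {n : ℕ} (hn : 2 ≤ n) (hO : Fintype.card Ω = n + 1) :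
    IsPrimePow n := by
  obtain ⟨G, -, hG⟩ := h
  have nn : ∀ y : Fin 3 ↪ Ω, y 0 ≠ y 1 ∧ y 1 ≠ y 2 ∧ y 0 ≠ y 2 := fun y =>
    ⟨fun e => by simpa using y.injective e, fun e => by simpa using y.injective e,
      fun e => by simpa using y.injective e⟩
  apply pp_three G hn hO
  · intro y y'
    obtain ⟨g, ⟨hg, e0, e1, e2⟩, -⟩ := hG (y 0) (y 1) (y 2) (y' 0) (y' 1) (y' 2) (nn y).1
      (nn y).2.1 (nn y).2.2 (nn y').1 (nn y').2.1 (nn y').2.2
    refine ⟨g, hg, fun i => ?_⟩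
    fin_cases i
    · exact e0
    · exact e1
    · exact e2
  · intro g hg y hy
    obtain ⟨u, -, hu⟩ := hG (y 0) (y 1) (y 2) (y 0) (y 1) (y 2) (nn y).1
      (nn y).2.1 (nn y).2.2 (nn y).1 (nn y).2.1 (nn y).2.2
    rw [hu g ⟨hg, hy 0, hy 1, hy 2⟩, hu 1 ⟨G.one_mem, rfl, rfl, rfl⟩]

/-- If the products of two elements do not form a sharply 3-transitive group, a nonidentity
product of six involutions fixes a triple. -/
lemma ex_word (h : Quad I) {n : ℕ} (hn : 2 ≤ n) (hO : Fintype.card Ω = n + 1)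
    (hpp : ¬ Sharp3 I) :
    ∃ v : Fin 3 → Equiv.Perm Ω, (∀ i, ∃ σ ∈ I, ∃ τ ∈ I, v i = σ * τ) ∧
      v 0 * (v 1 * v 2) ≠ 1 ∧ ∃ y : Fin 3 ↪ Ω, ∀ i, (v 0 * (v 1 * v 2)) (y i) = y i := by
  by_contra hcon
  push Not at hcon
  have h3 : ∀ v₀ v₁ v₂ : Equiv.Perm Ω, (∃ σ ∈ I, ∃ τ ∈ I, v₀ = σ * τ) →
      (∃ σ ∈ I, ∃ τ ∈ I, v₁ = σ * τ) → (∃ σ ∈ I, ∃ τ ∈ I, v₂ = σ * τ) →
      (∃ y : Fin 3 ↪ Ω, ∀ i, (v₀ * (v₁ * v₂)) (y i) = y i) → v₀ * (v₁ * v₂) = 1 := by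
    intro v₀ v₁ v₂ h0 h1 h2 ⟨y, hy⟩
    by_contra hne
    obtain ⟨i, hi⟩ := hcon ![v₀, v₁, v₂] (by
      intro i
      fin_cases i
      · exact h0
      · exact h1
      · exact h2) hne y
    exact hi (hy i)
  obtain ⟨y0⟩ : Nonempty (Fin 3 ↪ Ω) := by
    rw [Function.Embedding.nonempty_iff_card_le]
    simp only [Fintype.card_fin]
    omega
  obtain ⟨σ0, hσ0, -⟩ := two_trans h y0 y0
  have one : ∃ σ ∈ I, ∃ τ ∈ I, (1 : Equiv.Perm Ω) = σ * τ := ⟨σ0, hσ0, σ0, hσ0, (h.1 σ0 hσ0).symm⟩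
  have sinv : ∀ σ ∈ I, σ⁻¹ = σ := fun σ hσ => inv_eq_of_mul_eq_one_left (h.1 σ hσ)
  let K : Subgroup (Equiv.Perm Ω) :=
    { carrier := {v | ∃ σ ∈ I, ∃ τ ∈ I, v = σ * τ}
      one_mem' := one
      mul_mem' := by
        intro v w hv hw
        obtain ⟨σ, hσ, τ, hτ, e⟩ := two_trans h (y0.trans (v * w).toEmbedding) y0
        have := h3 (σ * τ) v w ⟨σ, hσ, τ, hτ, rfl⟩ hv hw ⟨y0, fun i => by
          have := e i
          simpa using this⟩
        refine ⟨τ, hτ, σ, hσ, ?_⟩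
        have e1 : v * w = (σ * τ)⁻¹ := (inv_eq_of_mul_eq_one_right this).symm
        rw [e1, mul_inv_rev, sinv σ hσ, sinv τ hτ]
      inv_mem' := by
        rintro _ ⟨σ, hσ, τ, hτ, rfl⟩
        exact ⟨τ, hτ, σ, hσ, by rw [mul_inv_rev, sinv σ hσ, sinv τ hτ]⟩ }
  apply hpp
  refine ⟨K, ?_, ?_⟩
  · ext f
    rw [prods_two]
    rfl
  · intro x y z x' y' z' h1 h2 h3' h1' h2' h3''
    obtain ⟨σ, hσ, τ, hτ, e⟩ := two_trans h (triple x y z h1 h2 h3') (triple x' y' z' h1' h2' h3'')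
    have e0 : σ (τ x) = x' := e 0
    have e1 : σ (τ y) = y' := e 1
    have e2 : σ (τ z) = z' := e 2
    refine ⟨σ * τ, ⟨⟨σ, hσ, τ, hτ, rfl⟩, e0, e1, e2⟩, ?_⟩
    rintro g ⟨hg, g0, g1, g2⟩
    have hK : g⁻¹ * (σ * τ) ∈ K := K.mul_mem (K.inv_mem hg) ⟨σ, hσ, τ, hτ, rfl⟩
    have := h3 (g⁻¹ * (σ * τ)) 1 1 hK one one ⟨triple x y z h1 h2 h3', fun i => by
      fin_cases i
      · show g⁻¹ (σ (τ x)) = x
        rw [e0, Equiv.Perm.inv_eq_iff_eq]; exact g0.symm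
      · show g⁻¹ (σ (τ y)) = y
        rw [e1, Equiv.Perm.inv_eq_iff_eq]; exact g1.symm
      · show g⁻¹ (σ (τ z)) = z
        rw [e2, Equiv.Perm.inv_eq_iff_eq]; exact g2.symm⟩
    have e3 : g⁻¹ * (σ * τ) = 1 := by simpa using this
    exact inv_mul_eq_one.1 e3

lemma card_triples {n : ℕ} (hO : Fintype.card Ω = n + 1) :
    Fintype.card (Fin 3 ↪ Ω) = (n + 1) * n * (n - 1) := by
  rw [Fintype.card_embedding_eq, Fintype.card_fin, hO]
  simp [Nat.descFactorial]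
  ring

lemma step (h : Quad I) {n : ℕ} (hn : 2 ≤ n) (hO : Fintype.card Ω = n + 1)
    (hpp : ¬ Sharp3 I) (k : ℕ) :
    2 * (Prods I (k + 2)).ncard + 2 * ((n + 1) * n * (n - 1)) ≤ 3 * (Prods I (k + 3)).ncard := by
  set R : Finset (Ω ≃ Ω) := univ.filter (fun f => f ∈ Prods I (k + 2)) with hR
  set C : Finset (Ω ≃ Ω) := univ.filter (fun f => f ∈ Prods I (k + 3)) with hC
  have eR : (Prods I (k + 2)).ncard = R.card := by
    rw [← Set.ncard_coe_finset]; congr 1; ext f; simp [hR]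
  have eC : (Prods I (k + 3)).ncard = C.card := by
    rw [← Set.ncard_coe_finset]; congr 1; ext f; simp [hC]
  rw [eR, eC]
  obtain ⟨v, hv, hne, y, hy⟩ := ex_word h hn hO hpp
  have sinv : ∀ σ ∈ I, σ⁻¹ = σ := fun σ hσ => inv_eq_of_mul_eq_one_left (h.1 σ hσ)
  have hlv : ∀ w : Equiv.Perm Ω, (∃ σ ∈ I, ∃ τ ∈ I, w = σ * τ) → lv R w + R.card ≤ C.card := by
    rintro w ⟨σ, hσ, τ, hτ, rfl⟩
    have h1 := half_right R C τ σ
      (fun p hp => mem_filter.2 ⟨mem_univ _, prods_succ.2 ⟨τ, hτ, p, (mem_filter.1 hp).2, rfl⟩⟩)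
      (fun p hp => mem_filter.2 ⟨mem_univ _, prods_succ.2 ⟨σ, hσ, p, (mem_filter.1 hp).2, rfl⟩⟩)
    have h2 : (τ.trans σ.symm) = σ * τ := by
      have : σ.symm = σ := sinv σ hσ
      rw [this]; rfl
    rw [h2] at h1
    have h3 := lv_add_st R (σ * τ)
    have h4 : st R (σ * τ) = (R.filter (fun p => p.trans (σ * τ) ∈ R)).card := rfl
    rw [← h4] at h1
    omega
  have r := rigid R (fun t y => by
    obtain ⟨f, hf, e⟩ := prods_trans h k t y
    exact ⟨f, mem_filter.2 ⟨mem_univ _, hf⟩, e⟩) _ hne y hy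
  rw [card_triples hO] at r
  have e1 := lv_mul R (v 0) (v 1 * v 2)
  have e2 := lv_mul R (v 1) (v 2)
  have e3 := lv_add_st R (v 0 * (v 1 * v 2))
  have k0 := hlv _ (hv 0)
  have k1 := hlv _ (hv 1)
  have k2 := hlv _ (hv 2)
  omega

lemma base (h : Quad I) {n : ℕ} (hn : 2 ≤ n) (hO : Fintype.card Ω = n + 1) :
    (n + 1) * n * (n - 1) ≤ (Prods I 2).ncard := by
  rw [← card_triples hO]
  obtain ⟨y0⟩ : Nonempty (Fin 3 ↪ Ω) := by
    rw [Function.Embedding.nonempty_iff_card_le]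
    simp only [Fintype.card_fin]
    omega
  have e : (Prods I 2).ncard = (univ.filter (fun f : Equiv.Perm Ω => f ∈ Prods I 2)).card := by
    rw [← Set.ncard_coe_finset]; congr 1; ext f; simp
  rw [e, ← card_univ]
  apply card_le_card_of_surjOn (fun f : Equiv.Perm Ω => y0.trans f.toEmbedding)
  intro y _
  obtain ⟨f, hf, e⟩ := prods_trans h 0 y0 y
  refine ⟨f, mem_coe.2 (mem_filter.2 ⟨mem_univ _, hf⟩), ?_⟩
  ext i
  simpa using e i

/-- **Growth.** -/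
theorem growth (h : Quad I) {n : ℕ} (hO : Fintype.card Ω = n + 1) (hpp : ¬ Sharp3 I) (k : ℕ) :
    (2 * 3 ^ k - 2 ^ k) * ((n + 1) * n * (n - 1)) ≤ 3 ^ k * (Prods I (k + 2)).ncard := by
  by_cases hn : 2 ≤ n
  · set M := (n + 1) * n * (n - 1) with hM
    have hp : ∀ k : ℕ, 2 ^ k ≤ 3 ^ k := fun k => Nat.pow_le_pow_left (by norm_num) k
    have key : ∀ k : ℕ, 2 * 3 ^ k * M ≤ 3 ^ k * (Prods I (k + 2)).ncard + 2 ^ k * M := by
      intro k
      induction k with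
      | zero =>
        have := base h hn hO
        simp only [pow_zero, zero_add, one_mul, mul_one]
        omega
      | succ k ih =>
        have h1 := step h hn hO hpp k
        rw [← hM] at h1
        have h2 := Nat.mul_le_mul_left (3 ^ k) h1
        have e1 : (3 : ℕ) ^ (k + 1) = 3 * 3 ^ k := by ring
        have e2 : (2 : ℕ) ^ (k + 1) = 2 * 2 ^ k := by ring
        rw [e1, e2, show k + 1 + 2 = k + 3 by ring]
        nlinarith [ih, h2]
    have h1 := key k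
    rw [Nat.sub_mul]
    omega
  · have : (n + 1) * n * (n - 1) = 0 := by
      have : n = 0 ∨ n = 1 := by omega
      rcases this with e | e <;> subst e <;> simp
    rw [this, mul_zero]
    exact Nat.zero_le _

end Pool.Agent.H180.Qd
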