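import Pool.Agent.H180.Qd.Mob
import Pool.Agent.H180.Pa.Fin

/-! The derived plane of a Steiner system `S(n² + 1, n + 1, 3)` at a point `p`, closed by its
parallel classes, and the system of the involutions of a block `C` not through `p`. -/

set_option autoImplicit false
set_option linter.unusedSectionVars false

open Finset
open scoped Classical

namespace Pool.Agent.H180.Qd

variable {V : Type} [Fintype V] {B : Set (Finset V)} {n : ℕ}

/-- tangent or equal -/
def Par (p : V) (D E : Finset V) : Prop := D = E ∨ ∀ x ∈ D, x ∈ E → x = p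

lemma Par.refl (p : V) (D : Finset V) : Par p D D := Or.inl rfl

lemma Par.symm {p : V} {D E : Finset V} (h : Par p D E) : Par p E D := by
  rcases h with h | h
  · exact Or.inl h.symm
  · exact Or.inr (fun x h1 h2 => h x h2 h1)

lemma S3.par_trans (h : S3 B n) (hn : 2 ≤ n) {p : V} {D E F : Finset V} (hD : D ∈ B) (hE : E ∈ B)
    (hF : F ∈ B) (pD : p ∈ D) (pE : p ∈ E) (pF : p ∈ F) (h1 : Par p D E) (h2 : Par p E F) :
    Par p D F := by
  rcases h1 with rfl | h1
  · exact h2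
  rcases h2 with rfl | h2
  · exact Or.inr h1
  by_contra hcon
  unfold Par at hcon
  push Not at hcon
  obtain ⟨hne, x, hxD, hxF, hxp⟩ := hcon
  have hxE : x ∉ E := fun hx => hxp (h1 x hxD hx)
  obtain ⟨T, -, -, -, -, hT⟩ := h.touch hn hE pE hxE
  exact hne ((hT D hD hxD pD h1).trans (hT F hF hxF pF (fun y hy hyE => h2 y hyE hy)).symm)

/-- the parallel through a point -/
lemma S3.par_ex (h : S3 B n) (hn : 2 ≤ n) {p x : V} {E : Finset V} (hE : E ∈ B) (pE : p ∈ E)
    (hxp : x ≠ p) : ∃ D ∈ B, p ∈ D ∧ x ∈ D ∧ Par p D E ∧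
      ∀ D' ∈ B, p ∈ D' → x ∈ D' → Par p D' E → D' = D := by
  by_cases hx : x ∈ E
  · refine ⟨E, hE, pE, hx, Par.refl _ _, ?_⟩
    intro D' _ _ hx' h'
    rcases h' with h' | h'
    · exact h'
    · exact absurd (h' x hx' hx) hxp
  · obtain ⟨T, h1, h2, h3, h4, h5⟩ := h.touch hn hE pE hx
    refine ⟨T, h1, h3, h2, Or.inr h4, ?_⟩
    intro D' g1 g2 g3 g4
    rcases g4 with g4 | g4
    · exact absurd (g4 ▸ g3) hx
    · exact h5 D' g1 g3 g2 g4

/-- two blocks through `p` with another common point -/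
lemma S3.not_par (h : S3 B n) {p x : V} {D E : Finset V} (hxp : x ≠ p) (hxD : x ∈ D)
    (hxE : x ∈ E) (hp : Par p D E) : D = E := by
  rcases hp with hp | hp
  · exact hp
  · exact absurd (hp x hxD hxE) hxp

section Cnt

lemma S3.par_card (h : S3 B n) (hn : 2 ≤ n) {p : V} {E : Finset V} (hE : E ∈ B) (pE : p ∈ E) :
    (univ.filter (fun D : Finset V => D ∈ B ∧ p ∈ D ∧ Par p D E)).card = n := by
  set A := univ.filter (fun D : Finset V => D ∈ B ∧ p ∈ D ∧ Par p D E) with hA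
  have ex : ∀ x : V, ∃ D : Finset V, x ∈ univ.erase p → D ∈ B ∧ p ∈ D ∧ x ∈ D ∧ Par p D E ∧
      ∀ D' ∈ B, p ∈ D' → x ∈ D' → Par p D' E → D' = D := by
    intro x
    by_cases hx : x = p
    · exact ⟨∅, fun h' => absurd hx (mem_erase.1 h').1⟩
    · obtain ⟨D, h1, h2, h3, h4, h5⟩ := h.par_ex hn hE pE hx
      exact ⟨D, fun _ => ⟨h1, h2, h3, h4, h5⟩⟩
  choose f hf using ex
  have e := card_eq_sum_card_fiberwise (s := univ.erase p) (t := A) (f := f) (by
    intro x hx
    obtain ⟨h1, h2, h3, h4, h5⟩ := hf x (mem_coe.1 hx)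
    exact mem_coe.2 (mem_filter.2 ⟨mem_univ _, h1, h2, h4⟩))
  have e2 : ∀ D ∈ A, ((univ.erase p).filter (fun x => f x = D)).card = n := by
    intro D hD
    obtain ⟨-, hD1, hD2, hD3⟩ := mem_filter.1 hD
    have : (univ.erase p).filter (fun x => f x = D) = D.erase p := by
      ext x
      constructor
      · intro hx0
        obtain ⟨hx, rfl⟩ := mem_filter.1 hx0
        exact mem_erase.2 ⟨(mem_erase.1 hx).1, (hf x hx).2.2.1⟩
      · intro hx0
        obtain ⟨h1, h2⟩ := mem_erase.1 hx0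
        have hx : x ∈ univ.erase p := mem_erase.2 ⟨h1, mem_univ _⟩
        exact mem_filter.2 ⟨hx, ((hf x hx).2.2.2.2 D hD1 hD2 h2 hD3).symm⟩
    rw [this, card_erase_of_mem hD2, h.2.1 D hD1]; rfl
  rw [sum_congr rfl e2, sum_const, smul_eq_mul, card_erase_of_mem (mem_univ _), card_univ, h.1] at e
  have : n * n = A.card * n := by rw [← e]; simp [pow_two]
  exact (Nat.eq_of_mul_eq_mul_right (by omega) this).symm

lemma S3.thr_card (h : S3 B n) (hn : 2 ≤ n) (p : V) :
    (univ.filter (fun D : Finset V => D ∈ B ∧ p ∈ D)).card = n ^ 2 + n := by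
  obtain ⟨q, hq⟩ : ∃ q : V, q ≠ p := by
    by_contra hcon
    push Not at hcon
    have : Fintype.card V ≤ 1 := Fintype.card_le_one_iff.2 (fun a b => (hcon a).trans (hcon b).symm)
    rw [h.1] at this
    nlinarith
  set A := univ.filter (fun D : Finset V => D ∈ B ∧ p ∈ D) with hA
  set Q := univ.filter (fun D : Finset V => D ∈ B ∧ p ∈ D ∧ q ∈ D) with hQ
  have ex : ∀ D : Finset V, ∃ E : Finset V, D ∈ A → E ∈ B ∧ p ∈ E ∧ q ∈ E ∧ Par p E D ∧
      ∀ D' ∈ B, p ∈ D' → q ∈ D' → Par p D' D → D' = E := by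
    intro D
    by_cases hD : D ∈ A
    · obtain ⟨-, h1, h2⟩ := mem_filter.1 hD
      obtain ⟨E, k1, k2, k3, k4, k5⟩ := h.par_ex hn h1 h2 hq
      exact ⟨E, fun _ => ⟨k1, k2, k3, k4, k5⟩⟩
    · exact ⟨∅, fun h' => absurd h' hD⟩
  choose f hf using ex
  have e := card_eq_sum_card_fiberwise (s := A) (t := Q) (f := f) (by
    intro D hD
    obtain ⟨h1, h2, h3, h4, h5⟩ := hf D (mem_coe.1 hD)
    exact mem_coe.2 (mem_filter.2 ⟨mem_univ _, h1, h2, h3⟩))
  have e2 : ∀ E ∈ Q, (A.filter (fun x => f x = E)).card = n := by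
    intro E hE
    obtain ⟨-, hE1, hE2, hE3⟩ := mem_filter.1 hE
    rw [← h.par_card hn hE1 hE2]
    congr 1
    ext D
    constructor
    · intro hx0
      obtain ⟨hx, rfl⟩ := mem_filter.1 hx0
      obtain ⟨-, g1, g2⟩ := mem_filter.1 hx
      exact mem_filter.2 ⟨mem_univ _, g1, g2, (hf D hx).2.2.2.1.symm⟩
    · intro hx0
      obtain ⟨-, g1, g2, g3⟩ := mem_filter.1 hx0
      have hx : D ∈ A := mem_filter.2 ⟨mem_univ _, g1, g2⟩
      exact mem_filter.2 ⟨hx, ((hf D hx).2.2.2.2 E hE1 hE2 hE3 g3.symm).symm⟩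
  rw [sum_congr rfl e2, sum_const, smul_eq_mul, h.card_through hn hq.symm] at e
  rw [e]; ring

end Cnt

end Pool.Agent.H180.Qd
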