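import Pool.Agent.H180.Qd.Der

/-! The system of the involutions of a block `C` of a Steiner system `S(n² + 1, n + 1, 3)` with
centres in the closed derived plane at a point `p` off `C`. -/

set_option autoImplicit false
set_option linter.unusedSectionVars false

open Finset
open scoped Classical

namespace Pool.Agent.H180.Qd

variable {V : Type} [Fintype V] {B : Set (Finset V)} {n : ℕ}

/-- blocks through `p` -/
abbrev LB (B : Set (Finset V)) (p : V) : Type := {D : Finset V // D ∈ B ∧ p ∈ D}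

/-- points off `C` and the parallel classes -/
abbrev XP (B : Set (Finset V)) (C : Finset V) (p q : V) : Type :=
  {x : V // x ≠ p ∧ x ∉ C} ⊕ {E : Finset V // E ∈ B ∧ p ∈ E ∧ q ∈ E}

def Inc {C : Finset V} {p q : V} : XP B C p q → Option (LB B p) → Prop
  | .inl x, some D => (x : V) ∈ (D : Finset V)
  | .inl _, none => False
  | .inr E, some D => Par p (D : Finset V) (E : Finset V)
  | .inr _, none => True

def JJ {C : Finset V} {p : V} : {a : V // a ∈ C} → Option (LB B p) → Prop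
  | a, some D => (a : V) ∈ (D : Finset V)
  | _, none => False

section

variable (h : S3 B n) (hn : 2 ≤ n) {C : Finset V} (hC : C ∈ B) {p : V} (hp : p ∉ C) {q : V}
  (hq : q ≠ p)
include h hn hC hp hq

lemma thr (x : XP B C p q) (a : {a : V // a ∈ C}) :
    ∃ D : LB B p, Inc x (some D) ∧ (a : V) ∈ (D : Finset V) ∧
      ∀ D' : LB B p, Inc x (some D') → (a : V) ∈ (D' : Finset V) → D' = D := by
  have hap : (a : V) ≠ p := fun e => hp (e ▸ a.2)
  rcases x with x | E
  · have hxa : (x : V) ≠ a := fun e => x.2.2 (e ▸ a.2)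
    obtain ⟨D, h1, h2, h3, h4⟩ := h.three (Ne.symm x.2.1) hxa hap.symm
    refine ⟨⟨D, h1, h2⟩, h3, h4, ?_⟩
    rintro ⟨D', g1, g2⟩ g3 g4
    exact Subtype.ext (h.uniq (Ne.symm x.2.1) hxa hap.symm g1 h1 g2 g3 g4 h2 h3 h4)
  · obtain ⟨D, h1, h2, h3, h4, h5⟩ := h.par_ex hn E.2.1 E.2.2.1 hap
    refine ⟨⟨D, h1, h2⟩, h4, h3, ?_⟩
    rintro ⟨D', g1, g2⟩ g3 g4
    exact Subtype.ext (h5 D' g1 g2 g4 g3)

omit hn hq in
lemma sec_pt {D : Finset V} (hD : D ∈ B) (pD : p ∈ D) (a : {a : V // a ∈ C}) (ha : (a : V) ∈ D) :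
    ∃ b : {a : V // a ∈ C}, Ch C D (a : V) (b : V) := by
  by_cases hb : ∃ b ∈ C, b ∈ D ∧ b ≠ a
  · obtain ⟨b, hb1, hb2, hb3⟩ := hb
    refine ⟨⟨b, hb1⟩, fun x => ⟨fun hx => ?_, ?_⟩⟩
    · by_contra hcon
      push Not at hcon
      have : D = C := h.uniq hb3 (Ne.symm hcon.1) (Ne.symm hcon.2) hD hC hb2 ha hx.1 hb1 a.2 hx.2
      exact hp (this ▸ pD)
    · rintro (rfl | rfl)
      · exact ⟨ha, a.2⟩
      · exact ⟨hb2, hb1⟩
  · push Not at hb
    refine ⟨a, fun x => ⟨fun hx => Or.inl (hb x hx.2 hx.1), ?_⟩⟩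
    rintro (rfl | rfl) <;> exact ⟨ha, a.2⟩

omit h hn hC hp hq in
lemma Ch.un {D : Finset V} {a b b' : V} (h1 : Ch C D a b) (h2 : Ch C D a b') : b = b' := by
  rcases (h1 b').1 ((h2 b').2 (Or.inr rfl)) with e | e
  · rcases (h2 b).1 ((h1 b).2 (Or.inr rfl)) with e' | e'
    · exact e'.trans e.symm
    · exact e'
  · exact e.symm

omit h hn hC hp hq in
lemma Ch.symm {D : Finset V} {a b : V} (h1 : Ch C D a b) : Ch C D b a := by
  intro x
  rw [h1 x]
  exact or_comm

omit hq in
lemma chord_un {a b : V} (ha : a ∈ C) (hb : b ∈ C) {D D' : Finset V} (hD : D ∈ B) (hD' : D' ∈ B)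
    (pD : p ∈ D) (pD' : p ∈ D') (h1 : Ch C D a b) (h2 : Ch C D' a b) : D = D' := by
  by_cases hab : a = b
  · subst hab
    obtain ⟨T, -, -, -, -, hT⟩ := h.touch hn hC ha hp
    rw [hT D hD pD ((h1 a).2 (Or.inl rfl)).1 (fun x hx hxC => by
        rcases (h1 x).1 ⟨hx, hxC⟩ with e | e <;> exact e),
      hT D' hD' pD' ((h2 a).2 (Or.inl rfl)).1 (fun x hx hxC => by
        rcases (h2 x).1 ⟨hx, hxC⟩ with e | e <;> exact e)]
  · exact h.uniq (x := p) (fun e => hp (e ▸ ha)) hab (fun e => hp (e ▸ hb)) hD hD' pD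
      ((h1 a).2 (Or.inl rfl)).1 ((h1 b).2 (Or.inr rfl)).1 pD' ((h2 a).2 (Or.inl rfl)).1
      ((h2 b).2 (Or.inr rfl)).1

omit h hn hC hp hq in
/-- `x` maps `a` to `b` -/
def Sx (x : XP B C p q) (a b : {a : V // a ∈ C}) : Prop :=
  ∃ D : LB B p, Inc x (some D) ∧ Ch C (D : Finset V) (a : V) (b : V)

lemma sx_ex (x : XP B C p q) (a : {a : V // a ∈ C}) : ∃ b, Sx x a b := by
  obtain ⟨D, h1, h2, -⟩ := thr h hn hC hp hq x a
  obtain ⟨b, hb⟩ := sec_pt h hC hp D.2.1 D.2.2 a h2
  exact ⟨b, D, h1, hb⟩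

lemma sx_un {x : XP B C p q} {a b b' : {a : V // a ∈ C}} (h1 : Sx x a b) (h2 : Sx x a b') :
    b = b' := by
  obtain ⟨D, g1, g2⟩ := h1
  obtain ⟨D', g1', g2'⟩ := h2
  obtain ⟨T, -, -, hT⟩ := thr h hn hC hp hq x a
  have e1 := hT D g1 ((g2 a).2 (Or.inl rfl)).1
  have e2 := hT D' g1' ((g2' a).2 (Or.inl rfl)).1
  rw [e1] at g2
  rw [e2] at g2'
  exact Subtype.ext (g2.un g2')

omit h hn hC hp hq in
lemma sx_symm {x : XP B C p q} {a b : {a : V // a ∈ C}} (h1 : Sx x a b) : Sx x b a := by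
  obtain ⟨D, g1, g2⟩ := h1
  exact ⟨D, g1, g2.symm⟩

noncomputable def dinv (x : XP B C p q) : Equiv.Perm {a : V // a ∈ C} :=
  Function.Involutive.toPerm (fun a => (sx_ex h hn hC hp hq x a).choose) (by
    intro a
    have h1 := (sx_ex h hn hC hp hq x a).choose_spec
    have h2 := (sx_ex h hn hC hp hq x (sx_ex h hn hC hp hq x a).choose).choose_spec
    exact sx_un h hn hC hp hq h2 (sx_symm h1))

lemma dinv_spec (x : XP B C p q) (a : {a : V // a ∈ C}) : Sx x a (dinv h hn hC hp hq x a) :=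
  (sx_ex h hn hC hp hq x a).choose_spec

lemma dinv_eq {x : XP B C p q} {a b : {a : V // a ∈ C}} (hs : Sx x a b) :
    dinv h hn hC hp hq x a = b := sx_un h hn hC hp hq (dinv_spec h hn hC hp hq x a) hs

lemma dinv_mul (x : XP B C p q) : dinv h hn hC hp hq x * dinv h hn hC hp hq x = 1 := by
  apply Equiv.ext
  intro a
  rw [Equiv.Perm.mul_apply, Equiv.Perm.one_apply]
  exact dinv_eq h hn hC hp hq (sx_symm (dinv_spec h hn hC hp hq x a))

lemma line_un (x y : XP B C p q) (l m : Option (LB B p)) (hxy : x ≠ y) (h1 : Inc x l)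
    (h2 : Inc y l) (h3 : Inc x m) (h4 : Inc y m) : l = m := by
  rcases x with x | E <;> rcases y with y | F <;> rcases l with _ | D <;> rcases m with _ | D'
  all_goals try rfl
  all_goals try exact absurd h1 id
  all_goals try exact absurd h2 id
  all_goals try exact absurd h3 id
  all_goals try exact absurd h4 id
  · have hne : (x : V) ≠ y := fun e => hxy (by rw [Subtype.ext e])
    exact congrArg some (Subtype.ext (h.uniq (Ne.symm x.2.1) hne (Ne.symm y.2.1) D.2.1 D'.2.1 D.2.2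
      h1 h2 D'.2.2 h3 h4))
  · obtain ⟨T, -, -, -, -, hT⟩ := h.par_ex hn F.2.1 F.2.2.1 x.2.1
    exact congrArg some (Subtype.ext ((hT D D.2.1 D.2.2 h1 h2).trans (hT D' D'.2.1 D'.2.2 h3 h4).symm))
  · obtain ⟨T, -, -, -, -, hT⟩ := h.par_ex hn E.2.1 E.2.2.1 y.2.1
    exact congrArg some (Subtype.ext ((hT D D.2.1 D.2.2 h2 h1).trans (hT D' D'.2.1 D'.2.2 h4 h3).symm))
  · exfalso
    have e := h.not_par hq E.2.2.2 F.2.2.2 (h.par_trans hn E.2.1 D'.2.1 F.2.1 E.2.2.1 D'.2.2 F.2.2.1
      (Par.symm h3) h4)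
    exact hxy (by rw [Subtype.ext e])
  · exfalso
    have e := h.not_par hq E.2.2.2 F.2.2.2 (h.par_trans hn E.2.1 D.2.1 F.2.1 E.2.2.1 D.2.2 F.2.2.1
      (Par.symm h1) h2)
    exact hxy (by rw [Subtype.ext e])
  · exfalso
    have e := h.not_par hq E.2.2.2 F.2.2.2 (h.par_trans hn E.2.1 D.2.1 F.2.1 E.2.2.1 D.2.2 F.2.2.1
      (Par.symm h1) h2)
    exact hxy (by rw [Subtype.ext e])

lemma cls (D : LB B p) : ∃ E : {E : Finset V // E ∈ B ∧ p ∈ E ∧ q ∈ E},
    Par p (D : Finset V) (E : Finset V) := by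
  obtain ⟨E, h1, h2, h3, h4, -⟩ := h.par_ex hn D.2.1 D.2.2 hq
  exact ⟨⟨E, h1, h2, h3⟩, h4.symm⟩

lemma line_ex (x y : XP B C p q) : ∃ l : Option (LB B p), Inc x l ∧ Inc y l := by
  rcases x with x | E <;> rcases y with y | F
  · by_cases hxy : (x : V) = y
    · have hC0 : 0 < C.card := by rw [h.2.1 C hC]; omega
      obtain ⟨a, ha⟩ := card_pos.1 hC0
      obtain ⟨D, h1, h2, -⟩ := thr h hn hC hp hq (Sum.inl x) ⟨a, ha⟩
      exact ⟨some D, h1, (show (y : V) ∈ (D : Finset V) from hxy ▸ h1)⟩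
    · obtain ⟨D, h1, h2, h3, h4⟩ := h.three (Ne.symm x.2.1) hxy (Ne.symm y.2.1)
      exact ⟨some ⟨D, h1, h2⟩, h3, h4⟩
  · obtain ⟨D, h1, h2, h3, h4, -⟩ := h.par_ex hn F.2.1 F.2.2.1 x.2.1
    exact ⟨some ⟨D, h1, h2⟩, h3, h4⟩
  · obtain ⟨D, h1, h2, h3, h4, -⟩ := h.par_ex hn E.2.1 E.2.2.1 y.2.1
    exact ⟨some ⟨D, h1, h2⟩, h4, h3⟩
  · exact ⟨none, trivial, trivial⟩

omit hn hC hp hq in
lemma opt_card (P : Finset V → Prop) (b : Bool) :
    (univ.filter (fun l : Option (LB B p) => (∃ D, l = some D ∧ P (D : Finset V)) ∨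
      (b = true ∧ l = none))).card =
      (univ.filter (fun D : Finset V => (D ∈ B ∧ p ∈ D) ∧ P D)).card + (if b then 1 else 0) := by
  have e1 : (univ.filter (fun l : Option (LB B p) => (∃ D, l = some D ∧ P (D : Finset V)) ∨
      (b = true ∧ l = none))) =
      ((univ.filter (fun D : LB B p => P (D : Finset V))).image some) ∪
        (if b then {none} else ∅) := by
    ext l
    rw [mem_filter, mem_union, mem_image]
    constructor
    · rintro ⟨-, ⟨D, rfl, hD⟩ | ⟨hb, rfl⟩⟩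
      · exact Or.inl ⟨D, mem_filter.2 ⟨mem_univ _, hD⟩, rfl⟩
      · right; rw [if_pos hb]; exact mem_singleton_self _
    · rintro (⟨D, hD, rfl⟩ | hb)
      · exact ⟨mem_univ _, Or.inl ⟨D, rfl, (mem_filter.1 hD).2⟩⟩
      · split_ifs at hb with h0
        · exact ⟨mem_univ _, Or.inr ⟨h0, mem_singleton.1 hb⟩⟩
        · exact absurd hb (notMem_empty _)
  rw [e1, card_union_of_disjoint, card_image_of_injective _ (Option.some_injective _)]
  · congr 1
    · have : (univ.filter (fun D : Finset V => (D ∈ B ∧ p ∈ D) ∧ P D)) =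
          (univ.filter (fun D : LB B p => P (D : Finset V))).image Subtype.val := by
        ext D
        rw [mem_filter, mem_image]
        constructor
        · rintro ⟨-, h1, h2⟩
          exact ⟨⟨D, h1⟩, mem_filter.2 ⟨mem_univ _, h2⟩, rfl⟩
        · rintro ⟨D', h1, rfl⟩
          exact ⟨mem_univ _, D'.2, (mem_filter.1 h1).2⟩
      rw [this, card_image_of_injective _ Subtype.val_injective]
    · split_ifs <;> simp
  · rw [Finset.disjoint_left]
    intro l hl hl'
    obtain ⟨D, -, rfl⟩ := mem_image.1 hl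
    split_ifs at hl' with h0
    · simp at hl'
    · exact absurd hl' (notMem_empty _)

/-- The system of a block. -/
noncomputable def dsys : Pool.Agent.H180.Pa.Sys {a : V // a ∈ C} (XP B C p q) (Option (LB B p)) n where
  σ := dinv h hn hC hp hq
  I := Inc
  J := JJ
  inv := dinv_mul h hn hC hp hq
  ex := by
    intro l a b ha hb
    obtain ⟨D, hD, pD, hch⟩ := h.chord hn hC hp a.2 b.2
    have key : ∀ x : XP B C p q, Inc x (some ⟨D, hD, pD⟩) → dinv h hn hC hp hq x a = b :=
      fun x hx => dinv_eq h hn hC hp hq ⟨⟨D, hD, pD⟩, hx, hch⟩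
    rcases l with _ | L
    · obtain ⟨E, hE⟩ := cls h hn hC hp hq ⟨D, hD, pD⟩
      exact ⟨Sum.inr E, trivial, key _ hE⟩
    · by_cases hpar : Par p D L
      · obtain ⟨E, hE⟩ := cls h hn hC hp hq L
        exact ⟨Sum.inr E, hE, key _ (h.par_trans hn hD L.2.1 E.2.1 pD L.2.2 E.2.2.1 hpar hE)⟩
      · unfold Par at hpar
        push Not at hpar
        obtain ⟨-, x, hxD, hxL, hxp⟩ := hpar
        have hxC : x ∉ C := by
          intro hxC
          rcases (hch x).1 ⟨hxD, hxC⟩ with e | e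
          · exact ha (show (a : V) ∈ (L : Finset V) from e ▸ hxL)
          · exact hb (show (b : V) ∈ (L : Finset V) from e ▸ hxL)
        exact ⟨Sum.inl ⟨x, hxp, hxC⟩, hxL, key _ hxD⟩
  un := by
    intro l a x y ha hx hy he
    by_contra hxy
    obtain ⟨D, h1, h2⟩ := dinv_spec h hn hC hp hq x a
    obtain ⟨D', h1', h2'⟩ := dinv_spec h hn hC hp hq y a
    rw [← he] at h2'
    have e : D = D' := Subtype.ext (chord_un h hn hC hp a.2 (dinv h hn hC hp hq x a).2 D.2.1 D'.2.1
      D.2.2 D'.2.2 h2 h2')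
    subst e
    have := line_un h hn hC hp hq x y l (some D) hxy hx hy h1 h1'
    subst this
    exact ha ((h2 a).2 (Or.inl rfl)).1
  pres := by
    intro x l a hx
    obtain ⟨T, hT1, hT2, hT⟩ := thr h hn hC hp hq x a
    obtain ⟨T', hT1', hT2', hT'⟩ := thr h hn hC hp hq x (dinv h hn hC hp hq x a)
    obtain ⟨D, h1, h2⟩ := dinv_spec h hn hC hp hq x a
    have e1 := hT D h1 ((h2 a).2 (Or.inl rfl)).1
    have e2 := hT' D h1 ((h2 _).2 (Or.inr rfl)).1
    rcases l with _ | L
    · exact Iff.rfl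
    · constructor
      · intro hJ
        have e3 := hT' L hx hJ
        rw [e3, ← e2]
        exact ((h2 a).2 (Or.inl rfl)).1
      · intro hJ
        have e3 := hT L hx hJ
        rw [e3, ← e1]
        exact ((h2 _).2 (Or.inr rfl)).1
  same := by
    intro x y l a hx hy ha
    rcases l with _ | L
    · exact absurd ha id
    · obtain ⟨b, hb⟩ := sec_pt h hC hp L.2.1 L.2.2 a ha
      rw [dinv_eq h hn hC hp hq (x := x) ⟨L, hx, hb⟩, dinv_eq h hn hC hp hq (x := y) ⟨L, hy, hb⟩]
  line := line_ex h hn hC hp hq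
  line_un := line_un h hn hC hp hq
  cardX := by
    have c1 : Fintype.card {x : V // x ≠ p ∧ x ∉ C} + (n + 1) = n ^ 2 := by
      rw [Fintype.card_subtype]
      have : (univ.filter (fun x : V => x ≠ p ∧ x ∉ C)) = (univ.erase p) \ C := by
        ext x; simp
      have hsub : C ⊆ univ.erase p := fun x hx => mem_erase.2 ⟨fun e => hp (e ▸ hx), mem_univ _⟩
      have hle := card_le_card hsub
      rw [this, card_sdiff_of_subset hsub, card_erase_of_mem (mem_univ _), card_univ, h.1, h.2.1 C hC]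
      rw [card_erase_of_mem (mem_univ _), card_univ, h.1, h.2.1 C hC] at hle
      omega
    have c2 : Fintype.card {E : Finset V // E ∈ B ∧ p ∈ E ∧ q ∈ E} = n + 1 := by
      rw [Fintype.card_subtype]
      exact h.card_through hn hq.symm
    rw [Fintype.card_sum, c2, c1]
  cardO := by
    rw [Fintype.card_coe, h.2.1 C hC]
  cardL := by
    rw [Fintype.card_option, Fintype.card_subtype, h.thr_card hn p]
  pencil := by
    intro x
    rcases x with x | E
    · have := opt_card (n := n) h (p := p) (fun D => (x : V) ∈ D) false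
      simp only [Bool.false_eq_true, false_and, or_false, if_false, add_zero] at this
      have e2 : (univ.filter (fun l : Option (LB B p) => Inc (Sum.inl x : XP B C p q) l)) =
          (univ.filter (fun l : Option (LB B p) => ∃ D, l = some D ∧ (x : V) ∈ (D : Finset V))) := by
        apply filter_congr
        intro l _
        rcases l with _ | L
        · simp [Inc]
        · simp [Inc]
      rw [e2, this, ← h.card_through hn (Ne.symm x.2.1)]
      congr 1
      ext D
      simp only [mem_filter, and_assoc]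
    · have := opt_card (n := n) h (p := p) (fun D => Par p D E) true
      simp only [true_and, if_true] at this
      have e2 : (univ.filter (fun l : Option (LB B p) => Inc (Sum.inr E : XP B C p q) l)) =
          (univ.filter (fun l : Option (LB B p) => (∃ D, l = some D ∧ Par p (D : Finset V) E) ∨
            l = none)) := by
        apply filter_congr
        intro l _
        rcases l with _ | L
        · simp [Inc]
        · simp [Inc]
      rw [e2, this, ← h.par_card hn E.2.1 E.2.2.1]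
      congr 2
      ext D
      simp only [mem_filter, and_assoc]
  J2 := by
    intro l a b c ha hb hc
    rcases l with _ | L
    · exact absurd ha id
    · obtain ⟨d, hd⟩ := sec_pt h hC hp L.2.1 L.2.2 a ha
      rcases (hd b).1 ⟨hb, b.2⟩ with e | e
      · exact Or.inl (Subtype.ext e.symm)
      · rcases (hd c).1 ⟨hc, c.2⟩ with e' | e'
        · exact Or.inr (Or.inr (Subtype.ext e'.symm))
        · exact Or.inr (Or.inl (Subtype.ext (e.trans e'.symm)))
  sec := by
    intro a b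
    obtain ⟨D, hD, pD, hch⟩ := h.chord hn hC hp a.2 b.2
    exact ⟨some ⟨D, hD, pD⟩, ((hch a).2 (Or.inl rfl)).1, ((hch b).2 (Or.inr rfl)).1⟩

end

end Pool.Agent.H180.Qd
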