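import Pool.Agent.H180.Qd.Abs

/-! Steiner systems `S(n² + 1, n + 1, 3)`: pencils and the involutions they induce. -/

set_option autoImplicit false
set_option linter.unusedSectionVars false

open Finset
open scoped Classical

namespace Pool.Agent.H180.Qd

/-- `B` is the set of blocks of a Steiner system `S(n² + 1, n + 1, 3)` on `V`. -/
def S3 {V : Type} [Fintype V] (B : Set (Finset V)) (n : ℕ) : Prop :=
  Fintype.card V = n ^ 2 + 1 ∧ (∀ D ∈ B, D.card = n + 1) ∧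
    ∀ s : Finset V, s.card = 3 → ∃! D : Finset V, D ∈ B ∧ s ⊆ D

/-- `D` meets `C` exactly in `a` and `b` (where `a = b` is allowed). -/
def Ch {V : Type} (C D : Finset V) (a b : V) : Prop := ∀ x, (x ∈ D ∧ x ∈ C) ↔ (x = a ∨ x = b)

/-- `σ` is induced on `C` by a pencil `T` of blocks with carrier `K ∋ p`: the blocks of `T` cover
`V`, any two of them meet exactly in `K`, the set `K` is disjoint from `C`, and every point `a` of
`C` lies on a block of `T` which meets `C` exactly in `a` and `σ a`. -/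
def Pencil {V : Type} [DecidableEq V] (B : Set (Finset V)) (C : Finset V) (p : V)
    (σ : Equiv.Perm {x : V // x ∈ C}) : Prop :=
  ∃ (T : Set (Finset V)) (K : Finset V), T ⊆ B ∧ p ∈ K ∧ (∀ D ∈ T, ∀ D' ∈ T, D ≠ D' → D ∩ D' = K) ∧
    (∀ x : V, ∃ D ∈ T, x ∈ D) ∧ (∀ x ∈ K, x ∉ C) ∧
    ∀ a : {x : V // x ∈ C}, ∃ D ∈ T, Ch C D (a : V) (σ a : V)

variable {V : Type} [Fintype V] {B : Set (Finset V)} {n : ℕ}

lemma S3.three (h : S3 B n) {x y z : V} (h1 : x ≠ y) (h2 : y ≠ z) (h3 : x ≠ z) :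
    ∃ D ∈ B, x ∈ D ∧ y ∈ D ∧ z ∈ D := by
  have hc : ({x, y, z} : Finset V).card = 3 := card_eq_three.2 ⟨x, y, z, h1, h3, h2, rfl⟩
  obtain ⟨D, ⟨hD, hs⟩, -⟩ := h.2.2 _ hc
  exact ⟨D, hD, hs (by simp), hs (by simp), hs (by simp)⟩

lemma S3.uniq (h : S3 B n) {x y z : V} (h1 : x ≠ y) (h2 : y ≠ z) (h3 : x ≠ z) {D D' : Finset V}
    (hD : D ∈ B) (hD' : D' ∈ B) (hx : x ∈ D) (hy : y ∈ D) (hz : z ∈ D) (hx' : x ∈ D') (hy' : y ∈ D')
    (hz' : z ∈ D') : D = D' := by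
  have hc : ({x, y, z} : Finset V).card = 3 := card_eq_three.2 ⟨x, y, z, h1, h3, h2, rfl⟩
  obtain ⟨E, -, hE⟩ := h.2.2 _ hc
  rw [hE D ⟨hD, ?_⟩, hE D' ⟨hD', ?_⟩]
  · intro t ht; simp at ht; rcases ht with rfl | rfl | rfl <;> assumption
  · intro t ht; simp at ht; rcases ht with rfl | rfl | rfl <;> assumption

lemma S3.card_through (h : S3 B n) (hn : 2 ≤ n) {y z : V} (hyz : y ≠ z) :
    (univ.filter (fun D : Finset V => D ∈ B ∧ y ∈ D ∧ z ∈ D)).card = n + 1 := by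
  set S : Finset V := (univ.erase y).erase z with hS
  have cS : S.card = n ^ 2 - 1 := by
    rw [hS, card_erase_of_mem (mem_erase.2 ⟨hyz.symm, mem_univ _⟩), card_erase_of_mem (mem_univ _),
      card_univ, h.1]
    omega
  have ex : ∀ x : V, ∃ D : Finset V, x ∈ S → D ∈ B ∧ x ∈ D ∧ y ∈ D ∧ z ∈ D := by
    intro x
    by_cases hx : x ∈ S
    · rw [hS, mem_erase, mem_erase] at hx
      obtain ⟨D, h1, h2, h3, h4⟩ := h.three hx.2.1 hyz hx.1
      exact ⟨D, fun _ => ⟨h1, h2, h3, h4⟩⟩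
    · exact ⟨∅, fun hx' => absurd hx' hx⟩
  choose f hf using ex
  have e := card_eq_sum_card_fiberwise (s := S) (t := univ.filter (fun D : Finset V => D ∈ B ∧ y ∈ D ∧ z ∈ D))
    (f := f) (by
      intro x hx
      obtain ⟨h1, h2, h3, h4⟩ := hf x (mem_coe.1 hx)
      exact mem_coe.2 (mem_filter.2 ⟨mem_univ _, h1, h3, h4⟩))
  have e2 : ∀ D ∈ univ.filter (fun D : Finset V => D ∈ B ∧ y ∈ D ∧ z ∈ D),
      (S.filter (fun x => f x = D)).card = n - 1 := by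
    intro D hD
    obtain ⟨-, hD1, hD2, hD3⟩ := mem_filter.1 hD
    have : S.filter (fun x => f x = D) = (D.erase y).erase z := by
      ext x
      constructor
      · intro hx0
        obtain ⟨hx, rfl⟩ := mem_filter.1 hx0
        have hx' := hx
        rw [hS, mem_erase, mem_erase] at hx'
        exact mem_erase.2 ⟨hx'.1, mem_erase.2 ⟨hx'.2.1, (hf x hx).2.1⟩⟩
      · intro hx0
        obtain ⟨h1, h23⟩ := mem_erase.1 hx0
        obtain ⟨h2, h3⟩ := mem_erase.1 h23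
        have hx : x ∈ S := by rw [hS, mem_erase, mem_erase]; exact ⟨h1, h2, mem_univ _⟩
        obtain ⟨k1, k2, k3, k4⟩ := hf x hx
        exact mem_filter.2 ⟨hx, h.uniq h2 hyz h1 k1 hD1 k2 k3 k4 h3 hD2 hD3⟩
    rw [this, card_erase_of_mem (mem_erase.2 ⟨hyz.symm, hD3⟩), card_erase_of_mem hD2, h.2.1 D hD1]
    omega
  rw [sum_congr rfl e2, sum_const, smul_eq_mul, cS] at e
  obtain ⟨m, rfl⟩ : ∃ m, n = m + 2 := ⟨n - 2, by omega⟩
  have e3 : (m + 2) ^ 2 - 1 = (m + 2 + 1) * (m + 2 - 1) := by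
    have : (m + 2) ^ 2 = (m + 2 + 1) * (m + 1) + 1 := by ring
    rw [this]; simp
  rw [e3] at e
  exact (Nat.eq_of_mul_eq_mul_right (by omega) e).symm

/-- the touching block -/
lemma S3.touch (h : S3 B n) (hn : 2 ≤ n) {E : Finset V} (hE : E ∈ B) {y z : V} (hz : z ∈ E)
    (hy : y ∉ E) : ∃ D ∈ B, y ∈ D ∧ z ∈ D ∧ (∀ x ∈ D, x ∈ E → x = z) ∧
      ∀ D' ∈ B, y ∈ D' → z ∈ D' → (∀ x ∈ D', x ∈ E → x = z) → D' = D := by
  have hyz : y ≠ z := fun e => hy (e ▸ hz)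
  set A := univ.filter (fun D : Finset V => D ∈ B ∧ y ∈ D ∧ z ∈ D) with hA
  have cA := h.card_through hn hyz
  rw [← hA] at cA
  have ex : ∀ x : V, ∃ D : Finset V, x ∈ E.erase z → D ∈ B ∧ x ∈ D ∧ y ∈ D ∧ z ∈ D := by
    intro x
    by_cases hx : x ∈ E.erase z
    · rw [mem_erase] at hx
      obtain ⟨D, h1, h2, h3, h4⟩ := h.three (x := x) (y := y) (z := z)
        (fun e => hy (e ▸ hx.2)) hyz hx.1
      exact ⟨D, fun _ => ⟨h1, h2, h3, h4⟩⟩
    · exact ⟨∅, fun hx' => absurd hx' hx⟩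
  choose f hf using ex
  have hinj : Set.InjOn f (↑(E.erase z) : Set V) := by
    intro x hx x' hx' he
    by_contra hne
    obtain ⟨k1, k2, k3, k4⟩ := hf x (mem_coe.1 hx)
    obtain ⟨l1, l2, l3, l4⟩ := hf x' (mem_coe.1 hx')
    rw [← he] at l2
    have g1 := mem_erase.1 (mem_coe.1 hx)
    have g2 := mem_erase.1 (mem_coe.1 hx')
    have : f x = E := h.uniq hne g2.1 g1.1 k1 hE k2 l2 k4 g1.2 g2.2 hz
    exact hy (this ▸ k3)
  have cI : ((E.erase z).image f).card = n := by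
    rw [card_image_of_injOn hinj, card_erase_of_mem hz, h.2.1 E hE]; rfl
  have hsub : (E.erase z).image f ⊆ A := by
    intro D hD
    obtain ⟨x, hx, rfl⟩ := mem_image.1 hD
    obtain ⟨k1, k2, k3, k4⟩ := hf x hx
    exact mem_filter.2 ⟨mem_univ _, k1, k3, k4⟩
  have hone : (A \ (E.erase z).image f).card = 1 := by
    rw [card_sdiff_of_subset hsub, cA, cI]; omega
  obtain ⟨D, hD⟩ := card_eq_one.1 hone
  have hchar : ∀ D' ∈ A, (D' ∉ (E.erase z).image f ↔ ∀ x ∈ D', x ∈ E → x = z) := by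
    intro D' hD'
    obtain ⟨-, a1, a2, a3⟩ := mem_filter.1 hD'
    constructor
    · intro hn' x hx hxE
      by_contra hne
      have hxe : x ∈ E.erase z := mem_erase.2 ⟨hne, hxE⟩
      obtain ⟨k1, k2, k3, k4⟩ := hf x hxe
      have hxy : x ≠ y := by
        rintro rfl
        exact hy hxE
      exact hn' (mem_image.2 ⟨x, hxe, h.uniq hxy hyz hne k1 a1 k2 k3 k4 hx a2 a3⟩)
    · intro h' hc
      obtain ⟨x, hx, rfl⟩ := mem_image.1 hc
      obtain ⟨k1, k2, k3, k4⟩ := hf x hx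
      exact (mem_erase.1 hx).1 (h' x k2 (mem_erase.1 hx).2)
  have hDm : D ∈ A \ (E.erase z).image f := by rw [hD]; exact mem_singleton_self _
  obtain ⟨hD1, hD2⟩ := Finset.mem_sdiff.1 hDm
  obtain ⟨-, a1, a2, a3⟩ := mem_filter.1 hD1
  refine ⟨D, a1, a2, a3, (hchar D hD1).1 hD2, ?_⟩
  intro D' b1 b2 b3 b4
  have hD'A : D' ∈ A := mem_filter.2 ⟨mem_univ _, b1, b2, b3⟩
  have : D' ∈ A \ (E.erase z).image f := Finset.mem_sdiff.2 ⟨hD'A, (hchar D' hD'A).2 b4⟩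
  rw [hD] at this
  exact mem_singleton.1 this

/-- chords through `p` -/
lemma S3.chord (h : S3 B n) (hn : 2 ≤ n) {C : Finset V} (hC : C ∈ B) {p : V} (hp : p ∉ C) {a b : V}
    (ha : a ∈ C) (hb : b ∈ C) : ∃ D ∈ B, p ∈ D ∧ Ch C D a b := by
  by_cases hab : a = b
  · subst hab
    obtain ⟨D, h1, h2, h3, h4, -⟩ := h.touch hn hC ha hp
    refine ⟨D, h1, h2, fun x => ⟨fun hx => Or.inl (h4 x hx.1 hx.2), ?_⟩⟩
    rintro (rfl | rfl) <;> exact ⟨h3, ha⟩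
  · obtain ⟨D, h1, h2, h3, h4⟩ := h.three (x := p) (fun e => hp (e ▸ ha)) hab (fun e => hp (e ▸ hb))
    refine ⟨D, h1, h2, fun x => ⟨fun hx => ?_, ?_⟩⟩
    · by_contra hcon
      push Not at hcon
      have : D = C := h.uniq hab (Ne.symm hcon.2) (Ne.symm hcon.1) h1 hC h3 h4 hx.1 ha hb hx.2
      exact hp (this ▸ h2)
    · rintro (rfl | rfl)
      · exact ⟨h3, ha⟩
      · exact ⟨h4, hb⟩

/-- a pencil induces a permutation -/
lemma S3.induced (h : S3 B n) {C : Finset V} (hC : C ∈ B) {p : V} (hp : p ∉ C)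
    {T : Set (Finset V)} {K : Finset V} (hT : T ⊆ B) (hTp : ∀ D ∈ T, p ∈ D) (hpK : p ∈ K)
    (hTK : ∀ D ∈ T, ∀ D' ∈ T, D ≠ D' → D ∩ D' = K) (hcov : ∀ x : V, ∃ D ∈ T, x ∈ D)
    (hKC : ∀ x ∈ K, x ∉ C) :
    ∃ σ : Equiv.Perm {x : V // x ∈ C}, Pencil B C p σ ∧
      ∀ D ∈ T, ∀ a b : {x : V // x ∈ C}, Ch C D (a : V) (b : V) → σ a = b := by
  have same : ∀ D ∈ T, ∀ D' ∈ T, ∀ x ∈ C, x ∈ D → x ∈ D' → D = D' := by
    intro D hD D' hD' x hx h1 h2
    by_contra hne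
    have : x ∈ D ∩ D' := mem_inter.2 ⟨h1, h2⟩
    rw [hTK D hD D' hD' hne] at this
    exact hKC x this hx
  have ex : ∀ a : {x : V // x ∈ C}, ∃ b : {x : V // x ∈ C}, ∃ D ∈ T, Ch C D (a : V) (b : V) := by
    intro a
    obtain ⟨D, hD, haD⟩ := hcov a
    by_cases hb : ∃ b ∈ C, b ∈ D ∧ b ≠ a
    · obtain ⟨b, hb1, hb2, hb3⟩ := hb
      refine ⟨⟨b, hb1⟩, D, hD, fun x => ⟨fun hx => ?_, ?_⟩⟩
      · by_contra hcon
        push Not at hcon
        have : D = C := h.uniq hb3 (Ne.symm hcon.1) (Ne.symm hcon.2) (hT hD) hC hb2 haD hx.1 hb1 a.2 hx.2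
        exact hp (this ▸ hTp D hD)
      · rintro (rfl | rfl)
        · exact ⟨haD, a.2⟩
        · exact ⟨hb2, hb1⟩
    · push Not at hb
      refine ⟨a, D, hD, fun x => ⟨fun hx => Or.inl (hb x hx.2 hx.1), ?_⟩⟩
      rintro (rfl | rfl) <;> exact ⟨haD, a.2⟩
  choose f E hET hf using ex
  have hun : ∀ a b : {x : V // x ∈ C}, ∀ D ∈ T, Ch C D (a : V) (b : V) → f a = b := by
    intro a b D hD hch
    have e : D = E a := same D hD (E a) (hET a) a a.2 ((hch a).2 (Or.inl rfl)).1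
      ((hf a a).2 (Or.inl rfl)).1
    subst e
    have h1 := (hch (f a)).1 ((hf a (f a)).2 (Or.inr rfl))
    rcases h1 with h1 | h1
    · have h2 := (hf a b).1 ((hch b).2 (Or.inr rfl))
      rcases h2 with h2 | h2
      · exact Subtype.ext (h1.trans h2.symm)
      · exact Subtype.ext h2.symm
    · exact Subtype.ext h1
  have hinv : Function.Involutive f := by
    intro a
    apply hun (f a) a (E a) (hET a)
    intro x
    rw [hf a x]
    exact or_comm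
  refine ⟨hinv.toPerm, ⟨T, K, hT, hpK, hTK, hcov, hKC, fun a => ⟨E a, hET a, hf a⟩⟩, ?_⟩
  intro D hD a b hch
  exact hun a b D hD hch

lemma pencil_inv {C : Finset V} {p : V} {σ : Equiv.Perm {x : V // x ∈ C}} (hσ : Pencil B C p σ) :
    σ * σ = 1 := by
  obtain ⟨T, K, hT, hpK, hTK, hcov, hKC, hch⟩ := hσ
  ext a
  rw [Equiv.Perm.mul_apply, Equiv.Perm.one_apply]
  obtain ⟨D, hD, h1⟩ := hch a
  obtain ⟨D', hD', h2⟩ := hch (σ a)
  have e : D = D' := by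
    by_contra hne
    have : (σ a : V) ∈ D ∩ D' := mem_inter.2 ⟨((h1 _).2 (Or.inr rfl)).1, ((h2 _).2 (Or.inl rfl)).1⟩
    rw [hTK D hD D' hD' hne] at this
    exact hKC _ this (σ a).2
  subst e
  rcases (h2 a).1 ((h1 a).2 (Or.inl rfl)) with h3 | h3
  · have h4 : σ a = a := Subtype.ext h3.symm
    rw [h4, h4]
  · exact h3.symm

/-- **The involutions induced on a block form a `Quad` set.** -/
theorem S3.quad (h : S3 B n) (hn : 2 ≤ n) {C : Finset V} (hC : C ∈ B) {p : V} (hp : p ∉ C) :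
    Quad {σ : Equiv.Perm {x : V // x ∈ C} | Pencil B C p σ} := by
  refine ⟨fun σ hσ => pencil_inv hσ, ?_⟩
  intro a b c d hac had hbc hbd
  obtain ⟨D₁, hD₁, hp₁, h1⟩ := h.chord hn hC hp a.2 b.2
  obtain ⟨D₂, hD₂, hp₂, h2⟩ := h.chord hn hC hp c.2 d.2
  have hne : D₁ ≠ D₂ := by
    intro e
    subst e
    rcases (h1 c).1 ((h2 c).2 (Or.inl rfl)) with e | e
    · exact hac (Subtype.ext e.symm)
    · exact hbc (Subtype.ext e.symm)
  have hKC : ∀ x ∈ D₁ ∩ D₂, x ∉ C := by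
    intro x hx hxC
    obtain ⟨g1, g2⟩ := mem_inter.1 hx
    have k1 := (h1 x).1 ⟨g1, hxC⟩
    have k2 := (h2 x).1 ⟨g2, hxC⟩
    rcases k1 with k1 | k1 <;> rcases k2 with k2 | k2
    · exact hac (Subtype.ext (k1.symm.trans k2))
    · exact had (Subtype.ext (k1.symm.trans k2))
    · exact hbc (Subtype.ext (k1.symm.trans k2))
    · exact hbd (Subtype.ext (k1.symm.trans k2))
  have hfin : ∀ T : Set (Finset V), T ⊆ B → (∀ D ∈ T, p ∈ D) →
      (∀ D ∈ T, ∀ D' ∈ T, D ≠ D' → D ∩ D' = D₁ ∩ D₂) → (∀ x : V, ∃ D ∈ T, x ∈ D) → D₁ ∈ T → D₂ ∈ T →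
      ∃ σ ∈ {σ : Equiv.Perm {x : V // x ∈ C} | Pencil B C p σ}, σ a = b ∧ σ c = d := by
    intro T hT hTp hTK hcov hT1 hT2
    obtain ⟨σ, hσ, hσ'⟩ := h.induced hC hp hT hTp (mem_inter.2 ⟨hp₁, hp₂⟩) hTK hcov hKC
    exact ⟨σ, hσ, hσ' D₁ hT1 a b h1, hσ' D₂ hT2 c d h2⟩
  by_cases hq : ∃ q ∈ D₁ ∩ D₂, q ≠ p
  · obtain ⟨q, hq, hqp⟩ := hq
    have hK : ∀ D ∈ B, ∀ D' ∈ B, p ∈ D → q ∈ D → p ∈ D' → q ∈ D' → D ≠ D' → D ∩ D' = {p, q} := by
      intro D hD D' hD' a1 a2 a3 a4 hDD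
      ext x
      rw [mem_inter, mem_insert, mem_singleton]
      constructor
      · rintro ⟨b1, b2⟩
        by_contra hcon
        push Not at hcon
        exact hDD (h.uniq hqp.symm (Ne.symm hcon.2) (Ne.symm hcon.1) hD hD' a1 a2 b1 a3 a4 b2)
      · rintro (rfl | rfl)
        · exact ⟨a1, a3⟩
        · exact ⟨a2, a4⟩
    have e12 := hK D₁ hD₁ D₂ hD₂ hp₁ (mem_inter.1 hq).1 hp₂ (mem_inter.1 hq).2 hne
    apply hfin {D | D ∈ B ∧ p ∈ D ∧ q ∈ D}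
    · exact fun D hD => hD.1
    · exact fun D hD => hD.2.1
    · rintro D ⟨a1, a2, a3⟩ D' ⟨b1, b2, b3⟩ hDD
      rw [e12]
      exact hK D a1 D' b1 a2 a3 b2 b3 hDD
    · intro x
      by_cases hxp : x = p
      · subst hxp; exact ⟨D₁, ⟨hD₁, hp₁, (mem_inter.1 hq).1⟩, hp₁⟩
      · by_cases hxq : x = q
        · subst hxq; exact ⟨D₁, ⟨hD₁, hp₁, (mem_inter.1 hq).1⟩, (mem_inter.1 hq).1⟩
        · obtain ⟨D, k1, k2, k3, k4⟩ := h.three hxp hqp.symm hxq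
          exact ⟨D, ⟨k1, k3, k4⟩, k2⟩
    · exact ⟨hD₁, hp₁, (mem_inter.1 hq).1⟩
    · exact ⟨hD₂, hp₂, (mem_inter.1 hq).2⟩
  · push Not at hq
    have e12 : D₁ ∩ D₂ = {p} := by
      ext x
      rw [mem_singleton]
      exact ⟨fun hx => hq x hx, fun hx => hx ▸ mem_inter.2 ⟨hp₁, hp₂⟩⟩
    apply hfin {D | D ∈ B ∧ p ∈ D ∧ (D = D₁ ∨ ∀ x ∈ D, x ∈ D₁ → x = p)}
    · exact fun D hD => hD.1
    · exact fun D hD => hD.2.1
    · rintro D ⟨a1, a2, a3⟩ D' ⟨b1, b2, b3⟩ hDD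
      rw [e12]
      ext x
      rw [mem_inter, mem_singleton]
      constructor
      · rintro ⟨c1, c2⟩
        by_contra hxp
        rcases a3 with a3 | a3
        · rcases b3 with b3 | b3
          · exact hDD (a3.trans b3.symm)
          · exact hxp (b3 x c2 (a3 ▸ c1))
        · rcases b3 with b3 | b3
          · exact hxp (a3 x c1 (b3 ▸ c2))
          · have hx1 : x ∉ D₁ := fun hx => hxp (a3 x c1 hx)
            obtain ⟨E, -, -, -, -, hE⟩ := h.touch hn hD₁ hp₁ hx1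
            exact hDD ((hE D a1 c1 a2 a3).trans (hE D' b1 c2 b2 b3).symm)
      · rintro rfl
        exact ⟨a2, b2⟩
    · intro x
      by_cases hx1 : x ∈ D₁
      · exact ⟨D₁, ⟨hD₁, hp₁, Or.inl rfl⟩, hx1⟩
      · obtain ⟨E, k1, k2, k3, k4, -⟩ := h.touch hn hD₁ hp₁ hx1
        exact ⟨E, ⟨k1, k3, Or.inr k4⟩, k2⟩
    · exact ⟨hD₁, hp₁, Or.inl rfl⟩
    · refine ⟨hD₂, hp₂, Or.inr ?_⟩
      intro x hx hx1
      exact hq x (mem_inter.2 ⟨hx1, hx⟩)

end Pool.Agent.H180.Qd
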