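import Pool.Agent.H180.Qd.Mob
import Pool.Agent.H180.Pa.Oval

/-! Ovals. -/

set_option autoImplicit false
set_option linter.unusedSectionVars false

open Finset Configuration Configuration.ProjectivePlane
open scoped Classical

namespace Pool.Agent.H180.Qd

open Pool.Agent.H180.Pa

/-- `σ` is the involution induced on the oval `O` by the lines through a point `x` off `O`. -/
def OvalInv (L : Type) {P : Type} [Membership P L] (O : Set P) (σ : Equiv.Perm {a : P // a ∈ O}) :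
    Prop :=
  ∃ x : P, x ∉ O ∧ ∀ a : {a : P // a ∈ O}, Sec L O x (a : P) (σ a : P)

variable {P L : Type} [Membership P L] [ProjectivePlane P L] [Finite P] [Finite L] {O : Set P}

lemma ovalinv_iff (hO : Oval L O) {σ : Equiv.Perm {a : P // a ∈ O}} :
    OvalInv L O σ ↔ ∃ x, σ = inv hO x := by
  constructor
  · rintro ⟨x, hx, h⟩
    exact ⟨⟨x, hx⟩, Equiv.ext fun a => (inv_eq hO (h a)).symm⟩
  · rintro ⟨x, rfl⟩
    exact ⟨x, x.2, fun a => inv_spec hO x a⟩

lemma chord (hO : Oval L O) {a b : P} (ha : a ∈ O) (hb : b ∈ O) :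
    ∃ m : L, a ∈ m ∧ b ∈ m ∧ ∀ c ∈ O, c ∈ m → c = a ∨ c = b := by
  by_cases hab : a = b
  · subst hab
    obtain ⟨m, ⟨h1, h2⟩, -⟩ := tangent hO ha
    exact ⟨m, h1, h1, fun c hc hcm => Or.inl (h2 c hc hcm)⟩
  · obtain ⟨m, h1, h2⟩ := ex_line (L := L) a b
    refine ⟨m, h1, h2, fun c hc hcm => ?_⟩
    rcases hO.2 a ha b hb c hc m h1 h2 hcm with e | e | e
    · exact absurd e hab
    · exact Or.inr e.symm
    · exact Or.inl e.symm

theorem oval_quad (hO : Oval L O) : Quad {σ : Equiv.Perm {a : P // a ∈ O} | OvalInv L O σ} := by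
  refine ⟨fun σ hσ => ?_, fun a b c d hac had hbc hbd => ?_⟩
  · obtain ⟨x, rfl⟩ := (ovalinv_iff hO).1 hσ
    exact inv_mul hO x
  · obtain ⟨l, hal, hbl, hl⟩ := chord hO a.2 b.2
    obtain ⟨m, hcm, hdm, hm⟩ := chord hO c.2 d.2
    have hlm : l ≠ m := by
      rintro rfl
      rcases hl c c.2 hcm with e | e
      · exact hac (Subtype.ext e.symm)
      · exact hbc (Subtype.ext e.symm)
    obtain ⟨x, hxl, hxm⟩ := ex_pt (P := P) hlm
    have hx : x ∉ O := by
      intro hx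
      rcases hl x hx hxl with e | e <;> rcases hm x hx hxm with e' | e'
      · exact hac (Subtype.ext (e.symm.trans e'))
      · exact had (Subtype.ext (e.symm.trans e'))
      · exact hbc (Subtype.ext (e.symm.trans e'))
      · exact hbd (Subtype.ext (e.symm.trans e'))
    refine ⟨inv hO ⟨x, hx⟩, (ovalinv_iff hO).2 ⟨_, rfl⟩, inv_eq hO ?_, inv_eq hO ?_⟩
    · exact ⟨a.2, b.2, l, hxl, hal, hbl, hl⟩
    · exact ⟨c.2, d.2, m, hxm, hcm, hdm, hm⟩

/-- the inequality -/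
def Grows {Ω : Type} (I : Set (Equiv.Perm Ω)) (n : ℕ) : Prop :=
  ∀ k : ℕ, (2 - (2 / 3 : ℝ) ^ k) * ((n + 1) * n * (n - 1)) ≤ ((Prods I (k + 2)).ncard : ℝ)

theorem dichotomy {Ω : Type} [Fintype Ω] {I : Set (Equiv.Perm Ω)} (h : Quad I) {n : ℕ}
    (hn : 2 ≤ n) (hO : Fintype.card Ω = n + 1) : (Sharp3 I ∧ IsPrimePow n) ∨ Grows I n := by
  by_cases hs : Sharp3 I
  · exact Or.inl ⟨hs, hs.isPrimePow hn hO⟩
  · refine Or.inr fun k => ?_
    have h1 := growth h hO hs k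
    have hp : 2 ^ k ≤ 2 * 3 ^ k := by
      have := Nat.pow_le_pow_left (show 2 ≤ 3 by norm_num) k
      omega
    have h2 : ((2 * 3 ^ k - 2 ^ k : ℕ) : ℝ) * (((n + 1) * n * (n - 1) : ℕ) : ℝ) ≤
        3 ^ k * ((Prods I (k + 2)).ncard : ℝ) := by exact_mod_cast h1
    rw [Nat.cast_sub hp] at h2
    push_cast [Nat.cast_sub (show 1 ≤ n by omega)] at h2
    have h3 : (0 : ℝ) < 3 ^ k := by positivity
    have e : (2 / 3 : ℝ) ^ k = 2 ^ k / 3 ^ k := by rw [div_pow]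
    rw [e]
    have e2 : (2 - (2 : ℝ) ^ k / 3 ^ k) * (((n : ℝ) + 1) * n * (n - 1)) =
        ((2 * 3 ^ k - 2 ^ k) * (((n : ℝ) + 1) * n * (n - 1))) / 3 ^ k := by
      field_simp
    rw [e2, div_le_iff₀ h3]
    linarith

end Pool.Agent.H180.Qd
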